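import Mathlib

set_option autoImplicit false

/-!
# From rank `r + 1` to rank `r` (helper33, double)

If the two bases of every matroid of rank `r + 1` can be ordered such that all blocks are bases then
the same is true in rank `r`: add a coloop.
-/

universe w

namespace Pool.Agent.H33Down

variable {α : Type w}

/-- The block of `r` cyclically consecutive terms, starting with the term number `i`. -/
def block {α : Type*} {r : ℕ} (u v : Fin r → α) (i : Fin (r + r)) : Set α :=
  {x | ∃ j : Fin (r + r), (j - i).val < r ∧ x = Fin.append u v j}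

/-- The terms of `u` from `k` on and the terms of `v` before `k`. -/
def S {α : Type*} {r : ℕ} (u v : Fin r → α) (k : ℕ) : Set α :=
  {x | (∃ a : Fin r, k ≤ a.val ∧ x = u a) ∨ ∃ a : Fin r, a.val < k ∧ x = v a}

theorem sub_val {N : ℕ} (j i : Fin N) :
    (j - i).val = if i.val ≤ j.val then j.val - i.val else N + j.val - i.val := by
  have hi := i.isLt
  have hj := j.isLt
  rw [Fin.sub_def]
  show (N - i.val + j.val) % N = _
  split_ifs with h
  · have e : N - i.val + j.val = (j.val - i.val) + N := by omega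
    rw [e, Nat.add_mod_right, Nat.mod_eq_of_lt (by omega)]
  · rw [Nat.mod_eq_of_lt (by omega)]
    omega

theorem block_lo {r : ℕ} (u v : Fin r → α) (i : Fin (r + r)) (hi : i.val < r) :
    block u v i = S u v i.val := by
  ext x
  constructor
  · rintro ⟨j, hj, rfl⟩
    rw [sub_val] at hj
    refine Fin.addCases (fun a ha => ?_) (fun a ha => ?_) j hj
    · left
      have h := a.isLt
      refine ⟨a, ?_, Fin.append_left u v a⟩
      rw [Fin.val_castAdd] at ha
      split_ifs at ha with h1
      · exact h1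
      · omega
    · right
      have h := a.isLt
      refine ⟨a, ?_, Fin.append_right u v a⟩
      rw [Fin.val_natAdd] at ha
      split_ifs at ha with h1 <;> omega
  · rintro (⟨a, ha, rfl⟩ | ⟨a, ha, rfl⟩)
    · refine ⟨Fin.castAdd r a, ?_, (Fin.append_left u v a).symm⟩
      have h := a.isLt
      rw [sub_val, Fin.val_castAdd, if_pos ha]
      omega
    · refine ⟨Fin.natAdd r a, ?_, (Fin.append_right u v a).symm⟩
      have h := a.isLt
      rw [sub_val, Fin.val_natAdd, if_pos (by omega)]
      omega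

theorem block_hi {r : ℕ} (u v : Fin r → α) (i : Fin (r + r)) (hi : r ≤ i.val) :
    block u v i = S v u (i.val - r) := by
  have hi' := i.isLt
  ext x
  constructor
  · rintro ⟨j, hj, rfl⟩
    rw [sub_val] at hj
    refine Fin.addCases (fun a ha => ?_) (fun a ha => ?_) j hj
    · right
      have h := a.isLt
      refine ⟨a, ?_, Fin.append_left u v a⟩
      rw [Fin.val_castAdd] at ha
      split_ifs at ha with h1 <;> omega
    · left
      have h := a.isLt
      refine ⟨a, ?_, Fin.append_right u v a⟩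
      rw [Fin.val_natAdd] at ha
      split_ifs at ha with h1 <;> omega
  · rintro (⟨a, ha, rfl⟩ | ⟨a, ha, rfl⟩)
    · refine ⟨Fin.natAdd r a, ?_, (Fin.append_right u v a).symm⟩
      have h := a.isLt
      rw [sub_val, Fin.val_natAdd, if_pos (by omega)]
      omega
    · refine ⟨Fin.castAdd r a, ?_, (Fin.append_left u v a).symm⟩
      have h := a.isLt
      rw [sub_val, Fin.val_castAdd, if_neg (by omega)]
      omega

theorem all_iff {r : ℕ} (P : Set α → Prop) (u v : Fin r → α) :
    (∀ i, P (block u v i)) ↔ ∀ k < r, P (S u v k) ∧ P (S v u k) := by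
  constructor
  · intro h k hk
    have h1 := h ⟨k, by omega⟩
    have h2 := h ⟨r + k, by omega⟩
    rw [block_lo u v _ hk] at h1
    rw [block_hi u v _ (Nat.le_add_right r k)] at h2
    refine ⟨h1, ?_⟩
    have e : (⟨r + k, by omega⟩ : Fin (r + r)).val - r = k := Nat.add_sub_cancel_left r k
    rwa [e] at h2
  · intro h i
    have hi := i.isLt
    rcases Nat.lt_or_ge i.val r with h1 | h1
    · rw [block_lo u v i h1]
      exact (h _ h1).1
    · rw [block_hi u v i h1]
      exact (h _ (by omega)).2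

theorem le_succAbove {r : ℕ} (p : Fin (r + 1)) (j : Fin r) (k : ℕ) :
    (if k ≤ p.val then k else k + 1) ≤ (p.succAbove j).val ↔ k ≤ j.val := by
  rcases Fin.lt_or_ge j.castSucc p with h | h
  · rw [Fin.succAbove_of_castSucc_lt p j h]
    have h' : j.val < p.val := h
    rw [Fin.val_castSucc]
    split_ifs <;> omega
  · rw [Fin.succAbove_of_le_castSucc p j h]
    have h' : p.val ≤ j.val := h
    rw [Fin.val_succ]
    split_ifs <;> omega

theorem pre_S {r : ℕ} (p : Fin (r + 1)) (u v : Fin (r + 1) → α ⊕ Unit) (u' v' : Fin r → α)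
    (hup : u p = Sum.inr ()) (hvp : v p = Sum.inr ()) (hu : ∀ j, u (p.succAbove j) = Sum.inl (u' j))
    (hv : ∀ j, v (p.succAbove j) = Sum.inl (v' j)) (k : ℕ) :
    Sum.inl ⁻¹' S u v (if k ≤ p.val then k else k + 1) = S u' v' k := by
  ext x
  constructor
  · rintro (⟨a, ha, hx⟩ | ⟨a, ha, hx⟩)
    · rcases Fin.eq_self_or_eq_succAbove p a with rfl | ⟨j, rfl⟩
      · rw [hup] at hx
        exact absurd hx (by simp)
      · rw [hu] at hx
        exact Or.inl ⟨j, (le_succAbove p j k).1 ha, Sum.inl.inj hx⟩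
    · rcases Fin.eq_self_or_eq_succAbove p a with rfl | ⟨j, rfl⟩
      · rw [hvp] at hx
        exact absurd hx (by simp)
      · rw [hv] at hx
        refine Or.inr ⟨j, ?_, Sum.inl.inj hx⟩
        by_contra hcon
        exact absurd ((le_succAbove p j k).2 (not_lt.1 hcon)) (not_le.2 ha)
  · rintro (⟨j, hj, rfl⟩ | ⟨j, hj, rfl⟩)
    · exact Or.inl ⟨p.succAbove j, (le_succAbove p j k).2 hj, (hu j).symm⟩
    · refine Or.inr ⟨p.succAbove j, ?_, (hv j).symm⟩
      by_contra hcon
      exact absurd ((le_succAbove p j k).1 (not_lt.1 hcon)) (not_le.2 hj)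

/-- The family with the coloop in front. -/
def ext {r : ℕ} (b : Fin r → α) : Fin (r + 1) → α ⊕ Unit :=
  Fin.cons (Sum.inr ()) fun j => Sum.inl (b j)

theorem ext_inj {r : ℕ} {b : Fin r → α} (hb : Function.Injective b) :
    Function.Injective (ext b) := by
  unfold ext
  rw [Fin.cons_injective_iff]
  refine ⟨?_, fun i j h => hb (Sum.inl.inj h)⟩
  rintro ⟨j, hj⟩
  exact absurd hj (by simp)

/-- The matroid with a coloop. -/
def Mx (M : Matroid α) : Matroid (α ⊕ Unit) := M.sum (Matroid.freeOn Set.univ)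

theorem Mx_isBase (M : Matroid α) (B : Set (α ⊕ Unit)) :
    (Mx M).IsBase B ↔ M.IsBase (Sum.inl ⁻¹' B) ∧ Sum.inr () ∈ B := by
  unfold Mx
  rw [Matroid.sum_isBase_iff, Matroid.freeOn_isBase_iff]
  refine and_congr Iff.rfl ⟨fun h => ?_, fun h => ?_⟩
  · have h1 : () ∈ (Sum.inr : Unit → α ⊕ Unit) ⁻¹' B := by
      rw [h]
      trivial
    exact h1
  · ext x
    exact ⟨fun _ => trivial, fun _ => h⟩

theorem ext_base {M : Matroid α} {r : ℕ} {b : Fin r → α} (hB : M.IsBase (Set.range b)) :
    (Mx M).IsBase (Set.range (ext b)) := by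
  rw [Mx_isBase]
  constructor
  · have e : (Sum.inl : α → α ⊕ Unit) ⁻¹' Set.range (ext b) = Set.range b := by
      ext x
      constructor
      · rintro ⟨j, hj⟩
        unfold ext at hj
        refine Fin.cases (fun h => ?_) (fun i h => ?_) j hj
        · rw [Fin.cons_zero] at h
          exact absurd h (by simp)
        · rw [Fin.cons_succ] at h
          exact ⟨i, Sum.inl.inj h⟩
      · rintro ⟨j, rfl⟩
        exact ⟨j.succ, by unfold ext; rw [Fin.cons_succ]⟩
    rw [e]
    exact hB
  · exact ⟨0, by unfold ext; rw [Fin.cons_zero]⟩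

theorem ext_ne {r : ℕ} (b : Fin r → α) (x : Fin (r + 1)) (hx : x ≠ 0) :
    ext b x = Sum.inl (b (x.pred hx)) := by
  obtain ⟨i, rfl⟩ := Fin.exists_succ_eq.2 hx
  unfold ext
  rw [Fin.cons_succ, Fin.pred_succ]

/-- A permutation of the long family, the coloop removed. -/
theorem exists_perm {r : ℕ} (b : Fin r → α) (σ : Equiv.Perm (Fin (r + 1))) :
    ∃ (p : Fin (r + 1)) (τ : Equiv.Perm (Fin r)), (ext b ∘ σ) p = Sum.inr () ∧
      ∀ j, (ext b ∘ σ) (p.succAbove j) = Sum.inl ((b ∘ τ) j) := by
  have hne : ∀ j, σ ((σ.symm 0).succAbove j) ≠ 0 := fun j h => by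
    have h1 : (σ.symm 0).succAbove j = σ.symm 0 := by
      rw [Equiv.eq_symm_apply]
      exact h
    exact Fin.succAbove_ne _ _ h1
  have hinj : Function.Injective fun j => (σ ((σ.symm 0).succAbove j)).pred (hne j) :=
    fun i j h => by
      have h1 := Fin.pred_inj.1 h
      exact Fin.succAbove_right_injective (σ.injective h1)
  refine ⟨σ.symm 0, Equiv.ofBijective _ (Finite.injective_iff_bijective.1 hinj), ?_, fun j => ?_⟩
  · show ext b (σ (σ.symm 0)) = _
    rw [Equiv.apply_symm_apply]
    unfold ext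
    rw [Fin.cons_zero]
  · show ext b (σ ((σ.symm 0).succAbove j)) = Sum.inl (b ((σ ((σ.symm 0).succAbove j)).pred
      (hne j)))
    exact ext_ne b _ (hne j)

/-- If the coloop is in every block then it has the same place in both halves. -/
theorem place_le {r : ℕ} {u v : Fin (r + 1) → α ⊕ Unit} {p p' : Fin (r + 1)} {u' v' : Fin r → α}
    (hu : ∀ j, u (p.succAbove j) = Sum.inl (u' j))
    (hv : ∀ j, v (p'.succAbove j) = Sum.inl (v' j))
    (h : ∀ k < r + 1, Sum.inr () ∈ S u v k) : p'.val ≤ p.val := by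
  by_contra hcon
  rw [not_le] at hcon
  have hp' := p'.isLt
  rcases h (p.val + 1) (by omega) with ⟨a, ha, hx⟩ | ⟨a, ha, hx⟩
  · rcases Fin.eq_self_or_eq_succAbove p a with rfl | ⟨j, rfl⟩
    · omega
    · rw [hu] at hx
      exact absurd hx (by simp)
  · rcases Fin.eq_self_or_eq_succAbove p' a with rfl | ⟨j, rfl⟩
    · omega
    · rw [hv] at hx
      exact absurd hx (by simp)

/-- All blocks can be made bases, in rank `r`. -/
def Good (r : ℕ) : Prop :=
  ∀ (α : Type w) (M : Matroid α) (b b' : Fin r → α), Function.Injective b →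
    Function.Injective b' → M.IsBase (Set.range b) → M.IsBase (Set.range b') →
    ∃ σ σ' : Equiv.Perm (Fin r), ∀ i : Fin (r + r), M.IsBase (block (b ∘ σ) (b' ∘ σ') i)

theorem down {r : ℕ} (h : Good.{w} (r + 1)) : Good.{w} r := by
  intro α M b b' hb hb' hB hB'
  obtain ⟨σ, σ', hσ⟩ := h (α ⊕ Unit) (Mx M) (ext b) (ext b') (ext_inj hb) (ext_inj hb')
    (ext_base hB) (ext_base hB')
  rw [all_iff (fun X => (Mx M).IsBase X)] at hσ
  obtain ⟨p, τ, hp, hτ⟩ := exists_perm b σ
  obtain ⟨p', τ', hp', hτ'⟩ := exists_perm b' σ'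
  have hpp : p' = p := by
    refine Fin.ext (le_antisymm ?_ ?_)
    · exact place_le hτ hτ' fun k hk => ((Mx_isBase M _).1 (hσ k hk).1).2
    · exact place_le hτ' hτ fun k hk => ((Mx_isBase M _).1 (hσ k hk).2).2
  subst hpp
  refine ⟨τ, τ', ?_⟩
  rw [all_iff (fun X => M.IsBase X)]
  intro k hk
  have hk' : (if k ≤ p'.val then k else k + 1) < r + 1 := by
    split_ifs <;> omega
  obtain ⟨h1, h2⟩ := hσ _ hk'
  have h3 := ((Mx_isBase M _).1 h1).1
  have h4 := ((Mx_isBase M _).1 h2).1
  rw [pre_S p' _ _ _ _ hp hp' hτ hτ' k] at h3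
  rw [pre_S p' _ _ _ _ hp' hp hτ' hτ k] at h4
  exact ⟨h3, h4⟩

theorem down_le {r s : ℕ} (hrs : r ≤ s) (h : Good.{w} s) : Good.{w} r := by
  induction s, hrs using Nat.le_induction with
  | base => exact h
  | succ s _ ih => exact ih (down h)

end Pool.Agent.H33Down
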