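import Pool.Agent.H33Down.Down
import Pool.Agent.Gabow87.Blocks

set_option autoImplicit false

/-!
# From rank `s` to rank `r ≤ s`, for the blocks of `Gabow87` (helper33)
-/

universe w

namespace Pool.Agent.H33Down

/-- The blocks of the two files are the same sets. -/
theorem block_eq {α : Type*} {r : ℕ} (u v : Fin r → α) (i : Fin (r + r)) :
    block u v i = Pool.Agent.Gabow87.block u v i := rfl

/-- If all blocks can be made bases in rank `s` then also in every rank `r ≤ s`. -/
theorem down87 {r s : ℕ} (hrs : r ≤ s)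
    (H : ∀ {β : Type w} (M : Matroid β) (b b' : Fin s → β), Function.Injective b →
      Function.Injective b' → M.IsBase (Set.range b) → M.IsBase (Set.range b') →
      ∃ σ σ' : Equiv.Perm (Fin s), ∀ i : Fin (s + s),
        M.IsBase (Pool.Agent.Gabow87.block (b ∘ σ) (b' ∘ σ') i))
    {α : Type w} (M : Matroid α) (b b' : Fin r → α) (hb : Function.Injective b)
    (hb' : Function.Injective b') (hB : M.IsBase (Set.range b)) (hB' : M.IsBase (Set.range b')) :
    ∃ σ σ' : Equiv.Perm (Fin r), ∀ i : Fin (r + r),
      M.IsBase (Pool.Agent.Gabow87.block (b ∘ σ) (b' ∘ σ') i) :=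
  down_le hrs (fun _ M b b' h1 h2 h3 h4 => H M b b' h1 h2 h3 h4) α M b b' hb hb' hB hB'

end Pool.Agent.H33Down
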